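import Mathlib
import Pool.Agent.Helper82_NIB.Stmts

/-!
# NIB, module CS1: the corrected row sums without the burned arcs
-/

set_option autoImplicit false

open Finset Matrix

namespace Pool.Agent.NIB.H27

lemma sgn_sq {V : Type} (w : V × Bool) : sgn w * sgn w = 1 := by
  unfold sgn
  split_ifs <;> norm_num

lemma abs_sgn {V : Type} (w : V × Bool) : |sgn w| = 1 := by
  unfold sgn
  split_ifs <;> norm_num

theorem cs1 (hrow : CrowStmt) (hphh : CphhStmt) (hphf : CphfStmt) (hsmo : CsmoStmt) :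
    Cs1Stmt := by
  intro V _ _ D hD w hw
  obtain ⟨r1, -, -, -, -, -, -⟩ := hrow V D hD
  obtain ⟨p1, p2, p3, -⟩ := hphh V D hD
  obtain ⟨-, f2⟩ := hphf V D hD
  obtain ⟨er, her, hf⟩ := f2 w hw
  have hs := hsmo V D hD w
  have h1 := r1 w
  have h2 := p1 w
  have h3 := p2 w
  have h4 := p3 w
  have hH := hD.rowH w hw.1
  have hR := hD.row w
  have hPhi := hD.Phi0
  -- split the sum
  have hsum : ∑ w', mat D.x w w' * Gf D.th D.sg w' * (1 + sgn w * (D.phi w - D.phi w')) =
      ∑ w', mat D.x w w' * Gf D.th D.sg w' +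
      sgn w * (∑ w', mat D.x w w' * Gf D.th D.sg w' * (D.phh w - D.phh w') +
        ∑ w', mat D.x w w' * Gf D.th D.sg w' * (D.phF w - D.phF w')) := by
    rw [← Finset.sum_add_distrib, Finset.mul_sum, ← Finset.sum_add_distrib]
    refine Finset.sum_congr rfl fun w' _ => ?_
    simp only [Cd.phi]
    ring
  rw [hsum, h1, h2, hf]
  have het : sgn w * D.et w = D.ee w := by
    unfold Cd.et
    rw [← mul_assoc, sgn_sq, one_mul]
  have hkey : rs D.x w + D.drf w - D.ee w +
        sgn w * (D.et w + mu (mat D.x) D.gh w ⬝ᵥ D.et - (1 - rs D.x w) * D.phh w + D.Th w +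
          (-D.Th w + (laz D.Ab ^ D.ta *ᵥ D.Thp) w + er)) - (rs D.x w + D.drf w) =
      sgn w * (mu (mat D.x) D.gh w ⬝ᵥ D.et - (1 - rs D.x w) * D.phh w +
        (laz D.Ab ^ D.ta *ᵥ D.Thp) w + er) := by
    rw [← het]
    ring
  rw [hkey, abs_mul, abs_sgn, one_mul]
  have h5 : |(1 - rs D.x w) * D.phh w| ≤ 202 / 100 * D.r * D.Phi := by
    rw [abs_mul, abs_of_nonneg (by linarith)]
    calc (1 - rs D.x w) * |D.phh w| ≤ (2 * D.r) * (101 / 100 * D.Phi) := by
          apply mul_le_mul (by linarith) h3 (abs_nonneg _)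
          have := hD.r0
          linarith
      _ = 202 / 100 * D.r * D.Phi := by ring
  have ht : |mu (mat D.x) D.gh w ⬝ᵥ D.et - (1 - rs D.x w) * D.phh w +
        (laz D.Ab ^ D.ta *ᵥ D.Thp) w + er| ≤
      |mu (mat D.x) D.gh w ⬝ᵥ D.et| + |(1 - rs D.x w) * D.phh w| +
        |(laz D.Ab ^ D.ta *ᵥ D.Thp) w| + |er| := by
    refine (abs_add_le _ _).trans ?_
    gcongr
    refine (abs_add_le _ _).trans ?_
    gcongr
    exact abs_sub _ _
  linarith

end Pool.Agent.NIB.H27
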