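import Mathlib
import Pool.Agent.Helper82_NIB.Stmts

/-!
# NIB, module CSMO: the smoothed second order term
-/

set_option autoImplicit false

open Finset Matrix

namespace Pool.Agent.NIB.H27

/-- Jensen for the square root with subprobability weights. -/
lemma sum_mul_sqrt_le {ι : Type*} (s : Finset ι) (p g : ι → ℝ) (hp : ∀ i ∈ s, 0 ≤ p i)
    (hp1 : ∑ i ∈ s, p i ≤ 1) (hg : ∀ i ∈ s, 0 ≤ g i) :
    ∑ i ∈ s, p i * √(g i) ≤ √(∑ i ∈ s, p i * g i) := by
  have h1 : (∑ i ∈ s, √(p i) * √(p i * g i)) ^ 2 ≤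
      (∑ i ∈ s, √(p i) ^ 2) * ∑ i ∈ s, √(p i * g i) ^ 2 :=
    Finset.sum_mul_sq_le_sq_mul_sq s _ _
  have h2 : ∑ i ∈ s, √(p i) * √(p i * g i) = ∑ i ∈ s, p i * √(g i) := by
    refine Finset.sum_congr rfl fun i hi => ?_
    rw [Real.sqrt_mul (hp i hi), ← mul_assoc, Real.mul_self_sqrt (hp i hi)]
  have h3 : ∑ i ∈ s, √(p i) ^ 2 = ∑ i ∈ s, p i :=
    Finset.sum_congr rfl fun i hi => Real.sq_sqrt (hp i hi)
  have h4 : ∑ i ∈ s, √(p i * g i) ^ 2 = ∑ i ∈ s, p i * g i :=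
    Finset.sum_congr rfl fun i hi => Real.sq_sqrt (mul_nonneg (hp i hi) (hg i hi))
  rw [h2, h3, h4] at h1
  have h5 : 0 ≤ ∑ i ∈ s, p i * g i := Finset.sum_nonneg fun i hi => mul_nonneg (hp i hi) (hg i hi)
  refine Real.le_sqrt_of_sq_le (h1.trans ?_)
  exact mul_le_of_le_one_left h5 hp1

theorem csmo (hsmo : SmoStmt) (hrow : CrowStmt) (hth : CthStmt) (hgam : CgamStmt) :
    CsmoStmt := by
  classical
  intro V _ _ D hD w
  obtain ⟨-, -, -, -, hAb, -, -⟩ := hrow V D hD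
  obtain ⟨t1, -, t3⟩ := hth V D hD
  obtain ⟨n, n0, n1, n2, n3⟩ := hgam V D hD
  set P : Matrix (V × Bool) (V × Bool) ℝ := laz D.Ab ^ D.ta with hP
  have hP0 : ∀ a b, 0 ≤ P a b := laz_pow_nonneg hAb.nonneg D.ta
  have hP1 : ∀ a, ∑ b, P a b ≤ 1 := laz_pow_row hAb.nonneg hAb.row D.ta
  have hde := hD.de0
  have hth0 := hD.th0
  have hel := hD.el0
  have hkb := hD.kb0
  have hta : (1 : ℝ) ≤ D.ta := by exact_mod_cast hD.ta1
  have hn := hsmo (V × Bool) D.Ab D.ta n (D.de * D.ta / 2) hAb.nonneg hAb.row hD.ta1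
    (by positivity) (fun a => by rw [abs_of_nonneg (n0 a)]; exact n1 a) w
  -- the bound of the smoothed defect
  have hM : 2 / √(D.ta : ℝ) * (D.de * D.ta / 2) = D.de * √(D.ta : ℝ) := by
    have h1 : (0 : ℝ) < √(D.ta : ℝ) := Real.sqrt_pos.mpr (by linarith)
    have h2 : (D.ta : ℝ) = √(D.ta : ℝ) * √(D.ta : ℝ) := (Real.mul_self_sqrt (by linarith)).symm
    field_simp
    nlinarith [h2]
  rw [hM] at hn
  set S : Finset (V × Bool) := univ.filter fun a => D.Hp a with hS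
  set g : V × Bool → ℝ := fun a => Gamh (mat D.x) D.gh a with hg
  have hpS : ∑ a ∈ S, P w a ≤ 1 :=
    (Finset.sum_le_sum_of_subset_of_nonneg (Finset.filter_subset _ _)
      fun a _ _ => hP0 w a).trans (hP1 w)
  -- Cauchy-Schwarz
  have hJ := sum_mul_sqrt_le S (fun a => P w a) g (fun a _ => hP0 w a) hpS (fun a _ => t1 a)
  -- the sum of p g
  have hpg : ∑ a ∈ S, P w a * g a ≤ D.de * (3 * √(D.ta : ℝ) + 6 * D.th * D.ta + 7) := by
    have h1 : ∑ a ∈ S, P w a * g a ≤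
        ∑ a ∈ S, P w a * (3 * ((D.Ab *ᵥ n) a - n a) + D.de * (6 * D.th * D.ta + 7)) := by
      refine Finset.sum_le_sum fun a ha => mul_le_mul_of_nonneg_left (n3 a ?_) (hP0 w a)
      exact (Finset.mem_filter.mp ha).2
    have h2 : ∑ a ∈ S, P w a * (3 * ((D.Ab *ᵥ n) a - n a) + D.de * (6 * D.th * D.ta + 7)) =
        3 * (∑ a ∈ S, P w a * ((D.Ab *ᵥ n) a - n a)) +
          (∑ a ∈ S, P w a) * (D.de * (6 * D.th * D.ta + 7)) := by
      rw [Finset.mul_sum, Finset.sum_mul, ← Finset.sum_add_distrib]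
      exact Finset.sum_congr rfl fun a _ => by ring
    have h3 : ∑ a ∈ S, P w a * ((D.Ab *ᵥ n) a - n a) = (P *ᵥ (D.Ab *ᵥ n - n)) w := by
      rw [hS, Finset.sum_filter]
      simp only [Matrix.mulVec, dotProduct, Pi.sub_apply]
      refine Finset.sum_congr rfl fun a _ => ?_
      split_ifs with ha
      · rfl
      · have h4 : ∑ b, D.Ab a b * n b = 0 :=
          Finset.sum_eq_zero fun b _ => by
            have : D.Ab a b = 0 := by
              unfold Cd.Ab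
              rw [if_neg fun h => ha h.1]
            rw [this, zero_mul]
        rw [h4, n2 a ha]
        ring
    have h5 : (P *ᵥ (D.Ab *ᵥ n - n)) w ≤ D.de * √(D.ta : ℝ) := (le_abs_self _).trans hn
    have h6 : (∑ a ∈ S, P w a) * (D.de * (6 * D.th * D.ta + 7)) ≤
        D.de * (6 * D.th * D.ta + 7) := mul_le_of_le_one_left (by positivity) hpS
    rw [h2, h3] at h1
    nlinarith
  have hsq : ∑ a ∈ S, P w a * √(g a) ≤
      √(D.de * (3 * √(D.ta : ℝ) + 6 * D.th * D.ta + 7)) := hJ.trans (Real.sqrt_le_sqrt hpg)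
  -- the main estimate
  have hmain : |(P *ᵥ D.Thp) w| ≤
      ∑ a ∈ S, P w a * (4 * D.el * (D.th * √D.th * √(g a) + D.th * D.kb)) := by
    simp only [Matrix.mulVec, dotProduct]
    refine (Finset.abs_sum_le_sum_abs _ _).trans ?_
    rw [hS, Finset.sum_filter]
    refine Finset.sum_le_sum fun a _ => ?_
    rw [abs_mul, abs_of_nonneg (hP0 w a)]
    unfold Cd.Thp
    split_ifs with ha
    · exact mul_le_mul_of_nonneg_left (t3 a) (hP0 w a)
    · simp
  have hrew : ∑ a ∈ S, P w a * (4 * D.el * (D.th * √D.th * √(g a) + D.th * D.kb)) =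
      4 * D.el * (D.th * √D.th * (∑ a ∈ S, P w a * √(g a)) +
        D.th * D.kb * ∑ a ∈ S, P w a) := by
    rw [Finset.mul_sum, Finset.mul_sum, ← Finset.sum_add_distrib, Finset.mul_sum]
    exact Finset.sum_congr rfl fun a _ => by ring
  rw [hrew] at hmain
  refine hmain.trans ?_
  unfold Cd.beta2
  have h7 : D.th * √D.th * (∑ a ∈ S, P w a * √(g a)) ≤
      D.th * √D.th * √(D.de * (3 * √(D.ta : ℝ) + 6 * D.th * D.ta + 7)) :=
    mul_le_mul_of_nonneg_left hsq (by positivity)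
  have h8 : D.th * D.kb * ∑ a ∈ S, P w a ≤ D.th * D.kb :=
    mul_le_of_le_one_right (by positivity) hpS
  exact mul_le_mul_of_nonneg_left (add_le_add h7 h8) (by positivity)

end Pool.Agent.NIB.H27
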